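import Pool.Agent.R630.ML.Rt
import Pool.Agent.R70.MA.NormOne
import Pool.Agent.Results.MP_b39724_nt.UniformBaseField
import Pool.Agent.Results.MP_af4c59_nt.RelativeCommutatorTowers

/-!
# Linear growth of `N_{d,K}(X; C₂ ≀ H)` for the groups `H` of a large class of towers

Let `K` be a number field and `Γ` a Galois group over `K`, for instance the trivial group. `Above k₀ Γ` is the
smallest class of groups which contains `Γ` and is closed under quotients, split extensions with finite abelian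
kernel, the semidirect products `(A ≀ S_n) ^ k ⋊ W`, all extensions by good products of wreath products, the
semidirect products `N ⋊ W`, and the fibre towers above `W` (extensions of `W` by `P ≀ A_r`, `P` the commutator
subgroup of `A ≀ S_n`, `r = 8 k + 4`) in which `k` is large in terms of the previous data. All its members `H` are
Galois groups over `K`, and if `H` has a core-free subgroup of small index, then the number `N_{d,K}(X; G)` of the
extensions of `K` of degree `d = 2 |H|` with group `G = C₂ ≀ H` is asymptotic to `c X`, `c > 0`.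

Definitions used from other files: `IsC2Wreath`, `Ext`, `SmallIndex`, `GoodKernel`, `IsTwistedPower`, `NormOneBy`
(`Results/MP_b39724_nt/UniformBaseField.lean`), `Low`, `Tower` (`Results/MP_af4c59_nt/RelativeCommutatorTowers.lean`).
-/

set_option autoImplicit false

open Filter
open Pool.Agent.Results.MP_b39724_nt.UniformBaseField (IsC2Wreath Ext SmallIndex GoodKernel IsTwistedPower NormOneBy)
open Pool.Agent.Results.MP_af4c59_nt.RelativeCommutatorTowers (Low Tower)

namespace Pool.Agent.Results.MP_bf81c2_nt.WreathTowers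

/-- `Γ` is a Galois group over `K`. -/
def IsGaloisGroupOver (K Γ : Type) [Field K] [Group Γ] : Prop :=
  ∃ (L : Type) (_ : Field L) (_ : Algebra K L), IsGalois K L ∧ Nonempty (Γ ≃* (L ≃ₐ[K] L))

/-- Bounds for the fibre towers: a number for every group `W`, group `A`, action of `W` on `A`, character of `W` and
number `n`. -/
abbrev Bounds : Type 1 :=
  ∀ (W : Type) (_ : Group W) (A : Type) (_ : Group A), (W →* MulAut A) → (W →* ℤˣ) → ℕ → ℕ

/-- The smallest class of groups which contains `Γ` and is closed under the operations listed. -/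
inductive Above (k₀ : Bounds) (Γ : Type) [Group Γ] : ∀ (W : Type) [Group W], Prop
  | base (W : Type) [Group W] (e : Γ ≃* W) : Above k₀ Γ W
  | quot (W W' : Type) [Group W] [Group W'] (q : W' →* W) (hq : Function.Surjective q)
      (h : Above k₀ Γ W') : Above k₀ Γ W
  | abelian (W W' : Type) [Group W] [Group W'] (p : W' →* W) (s : W →* W')
      (hs : ∀ w, p (s w) = w) (hf : Finite p.ker) (hc : ∀ x y, p x = 1 → p y = 1 → x * y = y * x)
      (h : Above k₀ Γ W) : Above k₀ Γ W'
  | power (W W' : Type) [Group W] [Group W'] (p : W' →* W) (A : Type) [Group A] [Finite A] (n : ℕ)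
      (hn : ((3 * Nat.card A + 2).factorial) ^ 3 ≤ n) (hp : IsTwistedPower A n p)
      (h : Above k₀ Γ W) : Above k₀ Γ W'
  | kernel (W W' : Type) [Group W] [Group W'] (p : W' →* W) (hp : Function.Surjective p)
      (ι : Type) [Finite ι] (A : ι → Type) [∀ i, Group (A i)] (m : ι → ℕ)
      (hN : GoodKernel p.ker A m) (h : Above k₀ Γ W) : Above k₀ Γ W'
  | normOne (W : Type) [Group W] (A : Type) [Group A] [Finite A] (φ : W →* MulAut A) (n : ℕ)
      (hn : ((3 * Nat.card A + 2).factorial) ^ 3 ≤ n) (h : Above k₀ Γ W) :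
      Above k₀ Γ (NormOneBy φ n)
  | fibre (W : Type) [iW : Group W] (A : Type) [iA : Group A] [Finite A] (φ : W →* MulAut A)
      (χ : W →* ℤˣ) (n : ℕ) (hn : ((3 * Nat.card A + 2).factorial) ^ 3 ≤ n) (k : ℕ)
      (hk : k₀ W iW A iA φ χ n ≤ k)
      (h : Above k₀ Γ W) : Above k₀ Γ (Tower φ χ n (8 * k + 4))

/-- The numbers `N_{d,K}(X; G)`, for `G` the group `C₂ ≀ H` of degree `d`, are finite and asymptotic to `c X`,
`c > 0`. -/
def Linear (K : Type) [Field K] [NumberField K] (H : Type) [Group H] : Prop :=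
  ∀ (d : ℕ) (G : Subgroup (Equiv.Perm (Fin d))), IsC2Wreath H G →
    (∀ X : ℝ, 0 < X → (Ext K d G X).Finite) ∧ ∃ c : ℝ, 0 < c ∧
      Tendsto (fun X : ℝ => ((Ext K d G X).ncard : ℝ) / X) atTop (nhds c)

/-- The bounds which are used over `K`. -/
noncomputable def bounds (K : Type) [Field K] : Bounds := fun _ _ _ _ φ χ n =>
  sInf {m : ℕ | ∀ k ≥ m, Nfff32c05.IsRealizable K (Tower φ χ n (8 * k + 4))}

open Pool.Agent.H391R2.T4 in
theorem above_real {K : Type} [Field K] [NumberField K] {Γ : Type} [Group Γ] [Finite Γ]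
    (hΓ : Nfff32c05.IsRealizable K Γ) {W : Type} [Group W] (h : Above (bounds K) Γ W) :
    Finite W ∧ Nfff32c05.IsRealizable K W := by
  induction h with
  | base W e =>
    obtain ⟨⟨⟨L, i1, i2, i3, f⟩⟩⟩ := hΓ
    exact ⟨Finite.of_equiv _ e.toEquiv, ⟨⟨⟨L, i1, i2, i3, e.symm.trans f⟩⟩⟩⟩
  | quot W W' q hq _ ih =>
    obtain ⟨h1, h2⟩ := ih
    obtain ⟨L, i1, i2, i3, i4, ⟨f⟩⟩ := Pool.Agent.TH59.WX.exists_gal_of K W' h2
    exact ⟨Finite.of_surjective q hq, Pool.Agent.H391R2.isRealizable_quotient L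
      (q.comp f.symm.toMonoidHom) (hq.comp f.symm.surjective)⟩
  | abelian W W' p s hs hf hc _ ih =>
    obtain ⟨h1, h2⟩ := ih
    have h3 : Finite W' := Pool.Agent.TH444.TW.finite_of_ker p
    exact ⟨h3, Pool.Agent.Results.MP_b39724_nt.UniformBaseField.step p
      (Pool.Agent.TH444.TW.ab_rs p s hs hc).rsk h2⟩
  | power W W' p A n hn hp _ ih =>
    obtain ⟨h1, h2⟩ := ih
    have hcls : Pool.Agent.TH444.TW.Cls K p := Pool.Agent.TH444.TW.Cls.wreath p A n hn hp
    have h3 : Finite W' := hcls.finite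
    exact ⟨h3, Pool.Agent.Results.MP_b39724_nt.UniformBaseField.step p hcls.rsk h2⟩
  | kernel W W' p hp ι A m hN _ ih =>
    obtain ⟨h1, h2⟩ := ih
    have hf : ∀ i, Finite (A i) := fun i => (hN.1 i).1
    have hnt : ∀ i, Nontrivial (A i) := fun i => (hN.1 i).2.1
    have hcls : Pool.Agent.TH444.TW.Cls K p := Pool.Agent.TH444.TW.Cls.kernel p hp ι A
      (fun i => (hN.1 i).2.2.1) (fun i => (hN.1 i).2.2.2.1) m (fun i => (hN.1 i).2.2.2.2) hN.2
    have h3 : Finite W' := hcls.finite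
    exact ⟨h3, Pool.Agent.Results.MP_b39724_nt.UniformBaseField.step p hcls.rsk h2⟩
  | normOne W A φ n hn _ ih =>
    obtain ⟨h1, h2⟩ := ih
    have h3 : Finite (EG φ n) := finite_eg φ n
    have h4 : Finite (Pool.Agent.R367.IG.NO φ n) := inferInstance
    exact ⟨h4, Pool.Agent.R367.IG.real_no K (hilb_numberField K) W h2 A φ n hn⟩
  | fibre W A φ χ n hn k hk _ ih =>
    obtain ⟨h1, h2⟩ := ih
    have hf0 : Finite (Pool.Agent.H391R2.Wr A n) := Pool.Agent.H391R2.T4.finite_wr A n
    have h3 : Finite (EG φ n) := finite_eg φ n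
    have h4 : Finite (Pool.Agent.R367.IG.TwNO φ χ n) := inferInstance
    have h5 : Finite (Pool.Agent.H391R2.Wr (Pool.Agent.R367.IG.TwNO φ χ n) (8 * k + 4)) :=
      Pool.Agent.H391R2.T4.finite_wr _ _
    have h6 : Finite (Pool.Agent.Y793.AltEP (Pool.Agent.R367.IG.twNProj φ χ n) (8 * k + 4)) :=
      inferInstance
    refine ⟨h6, ?_⟩
    obtain ⟨m, hm⟩ := Pool.Agent.R630.ML.real_tower K (hilb_numberField K) W h2 A φ χ n hn
    have hmem : bounds K W _ A _ φ χ n ∈
        {m : ℕ | ∀ k ≥ m, Nfff32c05.IsRealizable K (Tower φ χ n (8 * k + 4))} :=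
      Nat.sInf_mem ⟨m, hm⟩
    exact hmem k hk

theorem linear_of (K : Type) [Field K] [NumberField K] (H : Type) [Group H] [Finite H]
    (hH : SmallIndex H) (h : Nfff32c05.IsRealizable K H) : Linear K H := by
  obtain ⟨U, hU, hc⟩ := hH
  have h1 : 1 ≤ U.index := Nat.one_le_iff_ne_zero.2 Subgroup.index_ne_zero_of_finite
  have h2 : 2 ≤ Nat.card H := by nlinarith
  intro d G hG
  exact Pool.Agent.TH444.ML.asymp Pool.Agent.TH444.ML.rest K H h2 U hU hc
    (Pool.Agent.Results.MP_b39724_nt.UniformBaseField.gal_of_real K (AlgebraicClosure K) H (by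
      obtain ⟨⟨⟨L, i1, i2, i3, f⟩⟩⟩ := h
      exact ⟨L, i1, i2, i3, ⟨f⟩⟩)) G hG

/-- (1) Over every number field `K` and for every Galois group `Γ` over `K` there are bounds `k₀` such that all groups
`H` in the class `Above k₀ Γ` are finite, Galois groups over `K`, and that `N_{d,K}(X; C₂ ≀ H) ~ c X`, `c > 0`, if `H`
has a core-free subgroup of small index. (2), (3) This condition holds if the last step is `N ⋊ W`,
`n ≥ ((3 |A| |W| + 2)!) ^ 3`, or a fibre tower with `r ≥ 128 |E| ^ 2 + 4`, `E = Low φ χ n`. (4) The groups `C₂ ≀ H`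
exist, and are transitive of degree `2 |H|`. -/
theorem result :
    (∀ (K : Type) [Field K] [NumberField K] (Γ : Type) [Group Γ] [Finite Γ],
      IsGaloisGroupOver K Γ → ∃ k₀ : Bounds, ∀ (H : Type) [Group H], Above k₀ Γ H →
        Finite H ∧ IsGaloisGroupOver K H ∧ (SmallIndex H → Linear K H)) ∧
    (∀ (W A : Type) [Group W] [Finite W] [Group A] [Finite A] (φ : W →* MulAut A) (n : ℕ),
      ((3 * (Nat.card A * Nat.card W) + 2).factorial) ^ 3 ≤ n → SmallIndex (NormOneBy φ n)) ∧
    (∀ (W A : Type) [Group W] [Finite W] [Group A] [Finite A] (φ : W →* MulAut A)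
      (χ : W →* ℤˣ) (n r : ℕ), 128 * Nat.card (Low φ χ n) ^ 2 + 4 ≤ r →
      SmallIndex (Tower φ χ n r)) ∧
    (∀ (H : Type) [Group H] [Finite H], ∃ (d : ℕ) (G : Subgroup (Equiv.Perm (Fin d))),
      d = 2 * Nat.card H ∧ IsC2Wreath H G ∧ ∀ i j : Fin d, ∃ g ∈ G, g i = j) := by
  refine ⟨fun K _ _ Γ _ _ hΓ => ⟨bounds K, fun H _ hH => ?_⟩, fun W A _ _ _ _ φ n hn => ?_,
    fun W A _ _ _ _ φ χ n r hr => ?_, fun H _ _ =>
    Pool.Agent.Results.MP_b39724_nt.UniformBaseField.exists_group H⟩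
  · obtain ⟨L, i1, i2, i3, ⟨e⟩⟩ := hΓ
    obtain ⟨hf, hr⟩ := above_real (K := K) (Γ := Γ) ⟨⟨⟨L, i1, i2, i3, e⟩⟩⟩ hH
    refine ⟨hf, ?_, fun hs => linear_of K H hs hr⟩
    obtain ⟨⟨⟨L, i1, i2, i3, e⟩⟩⟩ := hr
    exact ⟨L, i1, i2, i3, ⟨e⟩⟩
  · exact Pool.Agent.R70.MA.small φ n hn
  · have hf0 : Finite (Pool.Agent.H391R2.Wr A n) := Pool.Agent.H391R2.T4.finite_wr A n
    have h3 : Finite (Pool.Agent.H391R2.T4.EG φ n) := Pool.Agent.H391R2.T4.finite_eg φ n
    have h4 : Finite (Pool.Agent.R367.IG.TwNO φ χ n) := inferInstance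
    exact (Pool.Agent.R630.ML.alt_small (Pool.Agent.R367.IG.twNProj φ χ n) r hr).2

end Pool.Agent.Results.MP_bf81c2_nt.WreathTowers
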